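import Pool.Agent.Lib_helper57.QI.E0

/-!
# Module E1 : lemV, lemH, lemE
-/

set_option autoImplicit false

namespace H57.QI

variable {H : Type} [Group H]

/-- prefixes of powers -/
theorem take_rep {S : Type} (y : List S) (n j i : ℕ) (hi : i ≤ y.length) (hj : j < n) :
    (rep y n).take (j * y.length + i) = rep y j ++ y.take i := by
  obtain ⟨k, rfl⟩ : ∃ k, n = j + (k + 1) := ⟨n - j - 1, by omega⟩
  rw [rep_add, rep_succ, List.take_append, List.take_of_length_le (by rw [length_rep]; omega),
    length_rep, Nat.add_sub_cancel_left, List.take_append_of_le_length hi]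

namespace Auto

variable {D : Geo H} (A : Auto D)

/-- bounded connecting words -/
theorem exists_conn : ∃ c : ℕ, ∀ p q : A.Q, (∃ V, A.st p V = q) → ∃ V, A.st p V = q ∧
    V.length ≤ c := by
  classical
  let f : A.Q × A.Q → ℕ := fun p => if h : ∃ V, A.st p.1 V = p.2 then
    (Classical.choose h).length else 0
  obtain ⟨c, hc⟩ := (Set.finite_range f).bddAbove
  refine ⟨c, fun p q h => ?_⟩
  have h1 : f (p, q) ≤ c := hc ⟨(p, q), rfl⟩
  simp only [f, dif_pos h] at h1
  exact ⟨_, Classical.choose_spec h, h1⟩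

/-- Lemma 1 -/
theorem loop_le : ∃ lam : ℝ, 0 ≤ lam ∧ ∀ (s : A.Q) (V : List A.S), A.live s → A.st s V = s →
    D.e (A.val V) ≠ 0 → (V.length : ℝ) ≤ lam * D.L (A.val V) := by
  obtain ⟨lam, hlam, hQG⟩ := A.exists_QG
  refine ⟨lam, by linarith, fun s V hs hV he => ?_⟩
  by_contra hcon
  push Not at hcon
  set d := (V.length : ℝ) - lam * D.L (A.val V) with hd
  have hdpos : 0 < d := by linarith
  obtain ⟨n, hn⟩ := exists_nat_gt (lam * (2 * ‖D.cen (A.val V)‖ + 1) / d)
  rw [div_lt_iff₀ hdpos] at hn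
  have h1 := hQG s (rep V n) hs.1 (by rw [A.st_rep hV n]; exact hs.2)
  rw [length_rep, val_rep] at h1
  have h2 : D.N (A.val V ^ n) ≤ 2 * ‖D.cen (A.val V)‖ + n * D.L (A.val V) := by
    unfold Geo.N
    have h3 := D.norm_x_pow_le he n
    have h4 : ∀ n : ℕ, D.L (A.val V ^ n) ≤ n * D.L (A.val V) := by
      intro n
      induction n with
      | zero => simp [D.L_one]
      | succ n ih =>
        rw [pow_succ]
        have := D.L_mul (A.val V ^ n) (A.val V)
        rw [Nat.succ_mul]
        omega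
    have h5 : (D.L (A.val V ^ n) : ℝ) ≤ n * D.L (A.val V) := by exact_mod_cast h4 n
    linarith
  have h6 : lam * (D.N (A.val V ^ n) + 1) ≤
      lam * (2 * ‖D.cen (A.val V)‖ + n * D.L (A.val V) + 1) := by
    apply mul_le_mul_of_nonneg_left _ (by linarith)
    linarith
  push_cast at h1
  have h7 : n * d = n * V.length - n * (lam * D.L (A.val V)) := by rw [hd]; ring
  have h8 : lam * (2 * ‖D.cen (A.val V)‖ + n * D.L (A.val V) + 1) =
      lam * (2 * ‖D.cen (A.val V)‖ + 1) + n * (lam * D.L (A.val V)) := by ring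
  linarith

theorem lemV : A.LemV := by
  classical
  obtain ⟨lam, hlam, hloop⟩ := A.loop_le
  obtain ⟨c, hc⟩ := A.exists_conn
  let f : A.Q → ℕ := fun p => if h : A.Vert p then (Classical.choose h.2).length else 0
  obtain ⟨c', hc'⟩ := (Set.finite_range f).bddAbove
  refine ⟨lam * (1 + c + c'), by positivity, fun p V hp hV => ?_⟩
  obtain ⟨V', hV', hV'c⟩ := hc _ _ hV.2
  have h1 : f p ≤ c' := hc' ⟨p, rfl⟩
  simp only [f, dif_pos hp] at h1
  obtain ⟨hz1, hz2⟩ := Classical.choose_spec hp.2
  set z := Classical.choose hp.2 with hz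
  have hst : A.st p (V ++ V') = p := by rw [st_append, hV']
  have hL : D.L (A.val (V ++ V')) ≤ D.L (A.val V) + c := by
    rw [val_append]
    have := D.L_mul (A.val V) (A.val V')
    have := A.L_val_le V'
    omega
  have key : (V.length : ℝ) ≤ lam * (D.L (A.val V) + c + c') := by
    by_cases he : D.e (A.val (V ++ V')) = 0
    · have h2 := hloop p (V ++ V' ++ z) hp.1 (by rw [st_append, hst, hz1]) (by
        rw [val_append, D.e_mul, he, zero_add]; exact hz2)
      have h3 : (D.L (A.val (V ++ V' ++ z)) : ℝ) ≤ D.L (A.val V) + c + c' := by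
        have : D.L (A.val (V ++ V' ++ z)) ≤ D.L (A.val V) + c + c' := by
          rw [val_append]
          have := D.L_mul (A.val (V ++ V')) (A.val z)
          have := A.L_val_le z
          omega
        exact_mod_cast this
      have h4 : (V.length : ℝ) ≤ (V ++ V' ++ z).length := by
        rw [List.length_append, List.length_append]; push_cast
        have : (0 : ℝ) ≤ V'.length := by positivity
        have : (0 : ℝ) ≤ z.length := by positivity
        linarith
      exact h4.trans (h2.trans (mul_le_mul_of_nonneg_left h3 hlam))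
    · have h2 := hloop p (V ++ V') hp.1 hst he
      have h3 : (D.L (A.val (V ++ V')) : ℝ) ≤ D.L (A.val V) + c + c' := by
        have : D.L (A.val (V ++ V')) ≤ D.L (A.val V) + c + c' := by omega
        exact_mod_cast this
      have h4 : (V.length : ℝ) ≤ (V ++ V').length := by
        rw [List.length_append]; push_cast
        have : (0 : ℝ) ≤ V'.length := by positivity
        linarith
      exact h4.trans (h2.trans (mul_le_mul_of_nonneg_left h3 hlam))
  refine key.trans ?_
  have h5 : (D.L (A.val V) : ℝ) + c + c' ≤ (1 + c + c') * (1 + D.L (A.val V)) := by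
    have : (0 : ℝ) ≤ D.L (A.val V) := by positivity
    have : (0 : ℝ) ≤ c := by positivity
    have : (0 : ℝ) ≤ c' := by positivity
    nlinarith
  calc _ ≤ lam * ((1 + c + c') * (1 + D.L (A.val V))) := mul_le_mul_of_nonneg_left h5 hlam
    _ = _ := by ring

theorem lemH : A.LemH := by
  obtain ⟨c, hc⟩ := A.exists_conn
  refine ⟨c, fun p V hp hnv hV => ?_⟩
  obtain ⟨V', hV', hV'c⟩ := hc _ _ hV.2
  have hst : A.st p (V ++ V') = p := by rw [st_append, hV']
  have he : D.e (A.val (V ++ V')) = 0 := by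
    by_contra hne
    exact hnv ⟨hp, V ++ V', hst, hne⟩
  rw [val_append, D.e_mul] at he
  have h1 := A.abs_e_val_le V'
  have h2 : D.e (A.val V) = - D.e (A.val V') := by omega
  rw [h2, abs_neg]
  have : (V'.length : ℤ) ≤ c := by exact_mod_cast hV'c
  omega

/-- a loop at `q` in the presence of a loop `y` in `P` -/
theorem loop_prefix {q : A.Q} {y : List A.S} (hq : A.live q) (hy : y ≠ []) (hyq : A.st q y = q)
    (hyL : D.L (A.val y) = 0) :
    (∀ z, A.st q z = q → D.e (A.val z) = 0) ∧
    ∀ z, A.st q z = q → ∃ n, z.length ≤ n ∧ z = (rep y n).take z.length := by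
  have hylen : 1 ≤ y.length := List.length_pos_iff.mpr hy
  have hye : D.e (A.val y) = 0 := D.e_of_L0 hyL
  have ha : ∀ z, A.st q z = q → D.e (A.val z) = 0 := by
    intro z hz
    by_contra hne
    obtain ⟨lam, hlam, hloop⟩ := A.loop_le
    obtain ⟨n, hn⟩ := exists_nat_gt (lam * D.L (A.val z))
    have h1 := hloop q (rep y n ++ z) hq (by rw [st_append, A.st_rep hyq, hz]) (by
      rw [val_append, val_rep, D.e_mul, D.e_pow, hye, mul_zero, zero_add]; exact hne)
    rw [val_append, val_rep, D.L_P_mul (D.L0_pow hyL n), List.length_append, length_rep] at h1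
    push_cast at h1
    have h2 : (n : ℝ) ≤ n * y.length := by
      have : (1 : ℝ) ≤ y.length := by exact_mod_cast hylen
      have : (0 : ℝ) ≤ n := by positivity
      nlinarith
    have : (0 : ℝ) ≤ z.length := by positivity
    linarith
  refine ⟨ha, fun z hz => ?_⟩
  have hez := ha z hz
  set r := z.length + 1 with hr
  have hLN : D.L (A.val y ^ (2 ^ r)) = 0 := D.L0_pow hyL _
  have hxN : D.x (A.val y ^ (2 ^ r)) = 2 ^ r * D.x (A.val y) := by
    rw [D.x_P_pow hyL]; push_cast; rfl
  have h1 := A.conj_path r hLN ⟨_, D.P_mem _ hyL, hxN⟩ z (by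
    intro t ht
    have h2 := A.abs_e_val_le (z.take t)
    have h3 : (z.take t).length ≤ t := List.length_take_le _ _
    have h4 : ((z.take t).length : ℤ) ≤ t := by exact_mod_cast h3
    have h5 : (t : ℤ) < z.length := by exact_mod_cast ht
    push_cast [hr]
    omega)
  have h2 : (A.val z)⁻¹ * A.val y ^ (2 ^ r) * A.val z = A.val y ^ (2 ^ r) := by
    apply D.P_ext h1 hLN
    rw [D.x_conj_P hLN, hez]
    simp
  have h3 : A.val (rep y (2 ^ r) ++ z) = A.val (z ++ rep y (2 ^ r)) := by
    rw [val_append, val_append, val_rep]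
    calc A.val y ^ 2 ^ r * A.val z = A.val z * ((A.val z)⁻¹ * A.val y ^ (2 ^ r) * A.val z) := by
          group
      _ = _ := by rw [h2]
  have hs1 : A.st q (rep y (2 ^ r) ++ z) = q := by rw [st_append, A.st_rep hyq, hz]
  have hs2 : A.st q (z ++ rep y (2 ^ r)) = q := by rw [st_append, hz, A.st_rep hyq]
  have h4 := A.uniq_path hq.1 (by rw [hs1]; exact hq.2) (by rw [hs1, hs2]) h3
  have h5 : z.length ≤ 2 ^ r := by
    have := (Nat.lt_two_pow_self (n := r)).le
    omega
  refine ⟨2 ^ r, h5, ?_⟩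
  have h6 : z.length ≤ (rep y (2 ^ r)).length := by
    rw [length_rep]; nlinarith
  have h7 := congrArg (List.take z.length) h4
  rw [List.take_append_of_le_length h6, List.take_left] at h7
  exact h7.symm

/-- paths from `q` inside an E-component -/
theorem path_prefix {q : A.Q} {y : List A.S} (hq : A.live q) (hy : y ≠ []) (hyq : A.st q y = q)
    (hyL : D.L (A.val y) = 0) {V : List A.S} (hV : A.sc q (A.st q V)) :
    ∃ j i, i ≤ y.length ∧ V.length = j * y.length + i ∧ V = rep y j ++ y.take i := by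
  obtain ⟨V', hV'⟩ := hV.2
  obtain ⟨n, hn, hz⟩ := (A.loop_prefix hq hy hyq hyL).2 (V ++ V') (by rw [st_append, hV'])
  have hylen : 1 ≤ y.length := List.length_pos_iff.mpr hy
  have hlen : V.length ≤ n := by
    rw [List.length_append] at hn; omega
  have h1 : V = (rep y n).take V.length := by
    have h2 := congrArg (List.take V.length) hz
    rw [List.take_left, List.take_take, min_eq_left (by rw [List.length_append]; omega)] at h2
    exact h2
  -- enlarge `n`
  have h3 : V = (rep y (n + 1)).take V.length := by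
    rw [rep_add, List.take_append_of_le_length (by rw [length_rep]; nlinarith)]
    exact h1
  have hdm := Nat.div_add_mod V.length y.length
  have hmod := Nat.mod_lt V.length (show 0 < y.length by omega)
  refine ⟨V.length / y.length, V.length % y.length, hmod.le, ?_, ?_⟩
  · rw [Nat.mul_comm]; exact hdm.symm
  · have h4 : V.length / y.length < n + 1 := by
      have := Nat.div_le_self V.length y.length
      omega
    have h5 := take_rep y (n + 1) (V.length / y.length) (V.length % y.length) hmod.le h4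
    rw [Nat.mul_comm, hdm] at h5
    rw [← h5]
    exact h3

/-- velocity of an E-state -/
theorem exists_psi {p : A.Q} (hp : A.EE p) : ∃ (psi : ℂ) (R : ℝ), psi ≠ 0 ∧ 0 ≤ R ∧ ¬ A.Vert p ∧
    (∀ V, A.sc p (A.st p V) →
      (D.L (A.val V) : ℝ) ≤ R ∧ ‖D.x (A.val V) - V.length * psi‖ ≤ R) ∧
    ∀ n : ℕ, ∃ W : List A.S, n ≤ W.length ∧ A.sc p (A.st p W) := by
  obtain ⟨hlp, q, y, hpq, hy, hyq, hyL⟩ := hp
  have hq : A.live q := A.live_sc hlp hpq
  obtain ⟨xi, hxi1, hxi⟩ := A.exists_xi
  obtain ⟨⟨cw', hcw'⟩, ⟨cw, hcw⟩⟩ := hpq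
  have hylen : 1 ≤ y.length := List.length_pos_iff.mpr hy
  have hylenR : (0 : ℝ) < y.length := by exact_mod_cast hylen
  have hx0 : D.x (A.val y) ≠ 0 := by
    intro h0
    have h1 := D.P_inj _ hyL h0
    apply hy
    apply A.uniq_path hq.1 (by rw [hyq]; exact hq.2) (V' := [])
    · rw [hyq]; rfl
    · rw [h1]; rfl
  set ψ : ℂ := D.x (A.val y) / y.length with hψ
  have hyC : (y.length : ℂ) ≠ 0 := by exact_mod_cast hylenR.ne'
  have hψ0 : ψ ≠ 0 := div_ne_zero hx0 hyC
  -- paths from `q`
  have hqpath : ∀ V, A.sc q (A.st q V) → D.L (A.val V) ≤ y.length ∧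
      ‖D.x (A.val V) - V.length * ψ‖ ≤ 2 * xi * y.length := by
    intro V hV
    obtain ⟨j, i, hi, hlen, hVe⟩ := A.path_prefix hq hy hyq hyL hV
    have hval : A.val V = A.val y ^ j * A.val (y.take i) := by
      rw [hVe, val_append, val_rep]
    constructor
    · rw [hval, D.L_P_mul (D.L0_pow hyL j)]
      have := A.L_val_le (y.take i)
      have h3 : (y.take i).length ≤ i := List.length_take_le _ _
      omega
    · rw [hval, D.x_P_mul (D.L0_pow hyL j), D.x_P_pow hyL, hlen]
      have h1 : (j : ℂ) * D.x (A.val y) + D.x (A.val (y.take i)) -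
          ((j * y.length + i : ℕ) : ℂ) * ψ = D.x (A.val (y.take i)) - i * ψ := by
        rw [hψ]; push_cast; field_simp; ring
      rw [h1]
      have h2 : ‖D.x (A.val (y.take i))‖ ≤ xi * y.length := by
        have h3 := D.norm_x_le_N (A.val (y.take i))
        have h4 := hxi (y.take i)
        have h5 : ((y.take i).length : ℝ) ≤ y.length := by
          rw [List.length_take]
          exact_mod_cast min_le_right _ _
        have h6 : xi * (y.take i).length ≤ xi * y.length :=
          mul_le_mul_of_nonneg_left h5 (by linarith)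
        linarith
      have h3 : ‖(i : ℂ) * ψ‖ ≤ xi * y.length := by
        rw [norm_mul, hψ, norm_div, Complex.norm_natCast, Complex.norm_natCast]
        have h4 : ‖D.x (A.val y)‖ ≤ xi * y.length :=
          (D.norm_x_le_N (A.val y)).trans (hxi y)
        have h5 : (i : ℝ) ≤ y.length := by exact_mod_cast hi
        rw [mul_div_assoc', div_le_iff₀ hylenR]
        have h6 : (0 : ℝ) ≤ i := by positivity
        calc (i : ℝ) * ‖D.x (A.val y)‖ ≤ y.length * (xi * y.length) := by
              apply mul_le_mul h5 h4 (norm_nonneg _) (by positivity)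
          _ = _ := by ring
      calc _ ≤ ‖D.x (A.val (y.take i))‖ + ‖(i : ℂ) * ψ‖ := norm_sub_le _ _
        _ ≤ _ := by linarith
  have hpnv : ¬ A.Vert p := by
    intro hv
    have hv' := A.Vert_sc hv ⟨⟨cw', hcw'⟩, ⟨cw, hcw⟩⟩
    obtain ⟨-, z, hz1, hz2⟩ := hv'
    exact hz2 ((A.loop_prefix hq hy hyq hyL).1 z hz1)
  refine ⟨D.al ^ (-D.e (A.val cw)) * ψ,
    2 * xi * y.length + y.length + cw.length * (1 + ‖ψ‖) + xi * cw.length, ?_, by positivity,
    hpnv, ?_, ?_⟩
  · exact mul_ne_zero (zpow_ne_zero _ D.al_ne_zero) hψ0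
  · intro V hV
    have hcV : A.sc q (A.st q (cw ++ V)) := by
      rw [st_append, hcw]
      exact A.sc_trans ⟨⟨cw, hcw⟩, ⟨cw', hcw'⟩⟩ hV
    obtain ⟨h1, h2⟩ := hqpath _ hcV
    constructor
    · have h3 : D.L (A.val V) ≤ D.L (A.val cw) + D.L (A.val (cw ++ V)) := by
        have h4 : A.val V = (A.val cw)⁻¹ * A.val (cw ++ V) := by rw [val_append]; group
        have h5 := D.L_mul (A.val cw)⁻¹ (A.val (cw ++ V))
        rw [D.L_inv] at h5
        rw [h4]
        exact h5
      have h4 := A.L_val_le cw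
      have h5 : (D.L (A.val V) : ℝ) ≤ cw.length + y.length := by
        have : D.L (A.val V) ≤ cw.length + y.length := by omega
        exact_mod_cast this
      have h6 : (0 : ℝ) ≤ 2 * xi * y.length := by positivity
      have h7 : (0 : ℝ) ≤ cw.length * ‖ψ‖ := by positivity
      have h8 : (0 : ℝ) ≤ xi * cw.length := by positivity
      have h9 : (cw.length : ℝ) * (1 + ‖ψ‖) = cw.length + cw.length * ‖ψ‖ := by ring
      linarith
    · have h3 : D.x (A.val V) - V.length * (D.al ^ (-D.e (A.val cw)) * ψ) =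
          D.al ^ (-D.e (A.val cw)) * ((D.x (A.val (cw ++ V)) - (cw ++ V).length * ψ) -
            D.x (A.val cw) + cw.length * ψ) := by
        rw [val_append, D.x_mul, List.length_append]
        push_cast
        have h4 : D.al ^ (-D.e (A.val cw)) * D.al ^ (D.e (A.val cw)) = 1 := by
          rw [← zpow_add₀ D.al_ne_zero]; simp
        linear_combination (-(D.x (A.val V))) * h4
      rw [h3, norm_mul, D.norm_al_zpow, one_mul]
      have h5 : ‖D.x (A.val cw)‖ ≤ xi * cw.length := (D.norm_x_le_N _).trans (hxi cw)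
      have h6 : ‖(cw.length : ℂ) * ψ‖ = cw.length * ‖ψ‖ := by
        rw [norm_mul, Complex.norm_natCast]
      have h7 := norm_add_le ((D.x (A.val (cw ++ V)) - (cw ++ V).length * ψ) -
            D.x (A.val cw)) (cw.length * ψ)
      have h8 := norm_sub_le (D.x (A.val (cw ++ V)) - (cw ++ V).length * ψ) (D.x (A.val cw))
      have h9 : (cw.length : ℝ) * (1 + ‖ψ‖) = cw.length + cw.length * ‖ψ‖ := by ring
      have h10 : (0 : ℝ) ≤ cw.length := by positivity
      have h11 : (0 : ℝ) ≤ (y.length : ℝ) := by positivity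
      linarith
  · intro n
    refine ⟨cw' ++ rep y n, ?_, ?_⟩
    · rw [List.length_append, length_rep]; nlinarith
    · rw [st_append, hcw', A.st_rep hyq]
      exact ⟨⟨cw', hcw'⟩, ⟨cw, hcw⟩⟩

theorem lemE : A.LemE := by
  classical
  have hex : ∀ p : A.Q, ∃ (psi : ℂ) (R : ℝ), 0 ≤ R ∧ (A.EE p → psi ≠ 0 ∧ ¬ A.Vert p ∧
    (∀ V, A.sc p (A.st p V) →
      (D.L (A.val V) : ℝ) ≤ R ∧ ‖D.x (A.val V) - V.length * psi‖ ≤ R) ∧
    ∀ n : ℕ, ∃ W : List A.S, n ≤ W.length ∧ A.sc p (A.st p W)) := by
    intro p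
    by_cases hp : A.EE p
    · obtain ⟨psi, R, h1, h2, h3, h4, h5⟩ := A.exists_psi hp
      exact ⟨psi, R, h2, fun _ => ⟨h1, h3, h4, h5⟩⟩
    · exact ⟨0, 0, le_rfl, fun h => absurd h hp⟩
  choose psi Rf hR0 hR using hex
  have hle : ∀ p, Rf p ≤ ∑ q, Rf q := fun p =>
    Finset.single_le_sum (f := Rf) (fun q _ => hR0 q) (Finset.mem_univ p)
  have hRsum : 0 ≤ ∑ q, Rf q := Finset.sum_nonneg (fun q _ => hR0 q)
  refine ⟨∑ q, Rf q, psi, hRsum, fun p hp => ?_⟩
  obtain ⟨h1, h2, h3, h4⟩ := hR p hp
  refine ⟨h1, h2, ?_, ?_⟩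
  · intro V hV
    obtain ⟨h5, h6⟩ := h3 V hV
    exact ⟨h5.trans (hle p), h6.trans (hle p)⟩
  · intro V hV
    by_contra hne
    have hp' : A.EE (A.st p V) := A.EE_sc hp hV
    obtain ⟨g1, g2, g3, g4⟩ := hR _ hp'
    set p' := A.st p V with hp'def
    have hpos : 0 < ‖psi p - D.al ^ (D.e (A.val V)) * psi p'‖ := by
      rw [norm_pos_iff, sub_ne_zero]; exact hne
    set K := Rf p + Rf p' + V.length * ‖psi p‖ + ‖D.x (A.val V)‖ with hK
    obtain ⟨n, hn⟩ := exists_nat_gt (K / ‖psi p - D.al ^ (D.e (A.val V)) * psi p'‖)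
    rw [div_lt_iff₀ hpos] at hn
    obtain ⟨W, hW1, hW2⟩ := g4 n
    have h5 := (g3 W hW2).2
    have h6 := (h3 (V ++ W) (by rw [st_append]; exact A.sc_trans hV hW2)).2
    rw [val_append, D.x_mul, List.length_append] at h6
    push_cast at h6
    have h7 : (W.length : ℂ) * (psi p - D.al ^ (D.e (A.val V)) * psi p') =
        -(D.x (A.val V) + D.al ^ (D.e (A.val V)) * D.x (A.val W) -
          ((V.length : ℂ) + W.length) * psi p) +
        D.al ^ (D.e (A.val V)) * (D.x (A.val W) - W.length * psi p') - V.length * psi p +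
          D.x (A.val V) := by ring
    have h8 : ‖(W.length : ℂ) * (psi p - D.al ^ (D.e (A.val V)) * psi p')‖ ≤ K := by
      rw [h7, hK]
      refine (norm_add_le _ _).trans ?_
      have e1 := norm_sub_le (-(D.x (A.val V) + D.al ^ (D.e (A.val V)) * D.x (A.val W) -
          ((V.length : ℂ) + W.length) * psi p) +
        D.al ^ (D.e (A.val V)) * (D.x (A.val W) - W.length * psi p')) ((V.length : ℂ) * psi p)
      have e2 := norm_add_le (-(D.x (A.val V) + D.al ^ (D.e (A.val V)) * D.x (A.val W) -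
          ((V.length : ℂ) + W.length) * psi p))
        (D.al ^ (D.e (A.val V)) * (D.x (A.val W) - W.length * psi p'))
      rw [norm_neg] at e2
      have e3 : ‖D.al ^ (D.e (A.val V)) * (D.x (A.val W) - W.length * psi p')‖ ≤ Rf p' := by
        rw [norm_mul, D.norm_al_zpow, one_mul]; exact h5
      have e4 : ‖(V.length : ℂ) * psi p‖ = V.length * ‖psi p‖ := by
        rw [norm_mul, Complex.norm_natCast]
      linarith
    rw [norm_mul, Complex.norm_natCast] at h8
    have h9 : (n : ℝ) ≤ W.length := by exact_mod_cast hW1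
    have h10 : (n : ℝ) * ‖psi p - D.al ^ (D.e (A.val V)) * psi p'‖ ≤
        W.length * ‖psi p - D.al ^ (D.e (A.val V)) * psi p'‖ :=
      mul_le_mul_of_nonneg_right h9 hpos.le
    linarith

end Auto

end H57.QI
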